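import Pool.Agent.P.MP_9492fd_pr.Sharp

/-! The exact range of the identity `E = 1 / n ^ r` among increasing words. -/

namespace Pool.Agent.Results.MP_9492fd_pr.ExactRange

open P.MP_9492fd_pr in
/-- For increasing labels on the first `r` sites the stationary probability is `1 / n ^ r` when all
consecutive labels differ by at least two, and strictly larger otherwise. -/
theorem result :
    ∀ n : ℕ, ∀ π : Equiv.Perm (Fin n) → ℝ,
      (∑ σ, π σ) = 1 →
      (∀ σ : Equiv.Perm (Fin n),
        (∑ k : Fin n, (if σ (finRotate n k) < σ k then π σ else 0)) =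
          ∑ k : Fin n, (if σ k < σ (finRotate n k)
            then π (σ * Equiv.swap k (finRotate n k)) else 0)) →
      ∀ r : ℕ, r ≤ n → ∀ i : Fin r → Fin n, StrictMono i → ∀ E : ℝ,
        E = ∑ σ ∈ Finset.univ.filter (fun σ : Equiv.Perm (Fin n) =>
          ∀ p : Fin n, ∀ a : Fin r, p.val = a.val → σ p = i a), π σ →
        1 / (n : ℝ) ^ r ≤ E ∧
          (E = 1 / (n : ℝ) ^ r ↔ ∀ a b : Fin r, a.val + 1 = b.val → (i a).val + 1 < (i b).val) := by
  intro n π h1 h r hr i hi E hE
  have hπ := stat_of_balance π h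
  obtain ⟨a1, a2⟩ := sharp hπ h1 r hr i hi
  have a3 := main hπ h1 r hr i
  simp only [mul_ite, mul_one, mul_zero, ← Finset.sum_filter, ← hE] at a1 a2 a3
  refine ⟨a1, fun e a b hab => lt_of_le_of_ne (hi (by rw [Fin.lt_def]; omega)) fun e' => ?_, a3⟩
  exact (a2 ⟨a, b, hab, e'⟩).ne' e

end Pool.Agent.Results.MP_9492fd_pr.ExactRange
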