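import Pool.Agent.P.MP_9492fd_pr.Fac

/-! Exact independence of two groups of sites in the multispecies TASEP on a ring. -/

namespace Pool.Agent.Results.MP_9492fd_pr.Factorization

/-- Labels `i` are prescribed on the sites of `S` and of `T`, with `S` left of `T`.  If for all
`p ∈ S`, `q ∈ T` there are more labels strictly between `i p` and `i q` than sites strictly between
`p` and `q` that can carry such a label, the two events are independent under a stationary law. -/
theorem result :
    ∀ n : ℕ, ∀ π : Equiv.Perm (Fin n) → ℝ,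
      (∑ σ, π σ) = 1 →
      (∀ σ : Equiv.Perm (Fin n),
        (∑ k : Fin n, (if σ (finRotate n k) < σ k then π σ else 0)) =
          ∑ k : Fin n, (if σ k < σ (finRotate n k)
            then π (σ * Equiv.swap k (finRotate n k)) else 0)) →
      ∀ (S T : Finset (Fin n)) (i : Fin n → Fin n),
        (∀ p ∈ S, ∀ q ∈ T, p < q ∧ (i p).val + 1 + (Finset.univ.filter fun z => p < z ∧ z < q ∧
          (z ∉ S ∪ T ∨ (i p < i z ∧ i z < i q))).card < (i q).val) →
        ∑ σ ∈ Finset.univ.filter (fun σ : Equiv.Perm (Fin n) => ∀ p ∈ S ∪ T, σ p = i p), π σ =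
          (∑ σ ∈ Finset.univ.filter (fun σ : Equiv.Perm (Fin n) => ∀ p ∈ S, σ p = i p), π σ) *
            ∑ σ ∈ Finset.univ.filter (fun σ : Equiv.Perm (Fin n) => ∀ p ∈ T, σ p = i p), π σ :=
  fun _ π h1 h S T i hi =>
    P.MP_9492fd_pr.factor (P.MP_9492fd_pr.stat_of_balance π h) h1 S T i hi

end Pool.Agent.Results.MP_9492fd_pr.Factorization
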